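import Mathlib

/-!
# MP_943409_an: definitions used in the statement

Weighted Hardy spaces are realised on `ℓ²(ℕ)`: the vector `x` codes the analytic function
`f(z) = ∑ (x j / β j) z^j`, so that `‖f‖² = ∑ |c_j|² β(j)² = ‖x‖²` for `c_j = x j / β j`.
-/

open Complex Filter Topology
open scoped ComplexOrder InnerProductSpace

namespace Aluthge

section Hilbert

variable {H : Type} [NormedAddCommGroup H] [InnerProductSpace ℂ H] [CompleteSpace H]

/-- `T = U P` is the polar decomposition of `T`: `P = (T* T)^{1/2}` and `U` is the partial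
isometry with `ker U = ker T`. -/
def IsPolar (T U P : H →L[ℂ] H) : Prop :=
  P.IsPositive ∧ P * P = star T * T ∧ T = U * P ∧ U * star U * U = U ∧ ∀ x, U x = 0 ↔ T x = 0

/-- `S` is the Aluthge transform `|T|^{1/2} U |T|^{1/2}` of `T`. -/
def IsAluthge (T S : H →L[ℂ] H) : Prop :=
  ∃ U P R : H →L[ℂ] H, IsPolar T U P ∧ R.IsPositive ∧ R * R = P ∧ S = R * U * R

end Hilbert

/-- The Hilbert space `ℓ²(ℕ)`. -/
abbrev L2N : Type := lp (fun _ : ℕ => ℂ) 2

/-- The value at `z` of the element of `H²(β)` coded by `x`. -/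
noncomputable def ev (β : ℕ → ℝ) (x : L2N) (z : ℂ) : ℂ := ∑' j : ℕ, (x j / (β j : ℂ)) * z ^ j

/-- `β` is a weight sequence: positive, `β 0 = 1`, and every element of `H²(β)` is an analytic
function on the unit disc (its power series converges there). -/
def IsWeight (β : ℕ → ℝ) : Prop :=
  β 0 = 1 ∧ (∀ j, 0 < β j) ∧
    ∀ (x : L2N) (z : ℂ), ‖z‖ < 1 → Summable (fun j : ℕ => (x j / (β j : ℂ)) * z ^ j)

/-- `C` is the (bounded) composition operator `f ↦ f ∘ ψ` on `H²(β)`. -/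
def IsCompOp (β : ℕ → ℝ) (ψ : ℂ → ℂ) (C : L2N →L[ℂ] L2N) : Prop :=
  ∀ (x : L2N) (z : ℂ), ‖z‖ < 1 → ev β (C x) z = ev β x (ψ z)

/-- `φ(z) = a z + (1 - a)`. -/
noncomputable def phi (a : ℝ) (z : ℂ) : ℂ := a * z + (1 - a)

/-- `σ(z) = a z / (-(1 - a) z + 1)`. -/
noncomputable def sigma (a : ℝ) (z : ℂ) : ℂ := a * z / (-(1 - a) * z + 1)

end Aluthge
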