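import Pool.Agent.Work.MP_943409_an.Defs

/-!
# MP_943409_an: interface between the blocks

Every block proves one of the `Stmt_*` below.  See `BLUEPRINT.md` for the proofs.
-/

open Complex MeasureTheory Filter Topology
open scoped ComplexOrder InnerProductSpace

namespace Aluthge

section Hilbert

variable {H : Type} [NormedAddCommGroup H] [InnerProductSpace ℂ H] [CompleteSpace H]

/-- `|T|`. -/
noncomputable def ab (T : H →L[ℂ] H) : H →L[ℂ] H := CFC.sqrt (star T * T)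

/-- `|T|^{1/2}`. -/
noncomputable def rt (T : H →L[ℂ] H) : H →L[ℂ] H := CFC.sqrt (ab T)

/-- The Aluthge transform as a function (see `Stmt_P1`). -/
noncomputable def alu (T : H →L[ℂ] H) : H →L[ℂ] H := Classical.epsilon (IsAluthge T)

/-- Hilbert-Schmidt norm at most `c`. -/
def HS (A : H →L[ℂ] H) (c : ℝ) : Prop :=
  0 ≤ c ∧ ∀ (n : ℕ) (e : Fin n → H), Orthonormal ℂ e → ∑ i, ‖A (e i)‖ ^ 2 ≤ c ^ 2

/-- The rank one operator `x ↦ ⟪v, x⟫ v`. -/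
noncomputable def rk (v : H) : H →L[ℂ] H := (innerSL ℂ v).smulRight v

end Hilbert

/-! ## Block P: toolkit for the Aluthge transform -/

/-- P1. Existence and uniqueness. -/
def Stmt_P1 : Prop :=
  ∀ (H : Type) [NormedAddCommGroup H] [InnerProductSpace ℂ H] [CompleteSpace H]
    (T : H →L[ℂ] H), IsAluthge T (alu T) ∧ ∀ S, IsAluthge T S → S = alu T

/-- P2. Intertwining and characterisation. -/
def Stmt_P2 : Prop :=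
  ∀ (H : Type) [NormedAddCommGroup H] [InnerProductSpace ℂ H] [CompleteSpace H]
    (T : H →L[ℂ] H), alu T * rt T = rt T * T ∧
      ∀ S : H →L[ℂ] H, Function.Injective T → S * rt T = rt T * T → S = alu T

/-- P3. Norm. -/
def Stmt_P3 : Prop :=
  ∀ (H : Type) [NormedAddCommGroup H] [InnerProductSpace ℂ H] [CompleteSpace H]
    (T : H →L[ℂ] H), ‖alu T‖ ≤ ‖T‖

/-- P4. Restriction to (the image of) a reducing subspace, in particular unitary invariance. -/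
def Stmt_P4 : Prop :=
  ∀ (H K : Type) [NormedAddCommGroup H] [InnerProductSpace ℂ H] [CompleteSpace H]
    [NormedAddCommGroup K] [InnerProductSpace ℂ K] [CompleteSpace K]
    (T : H →L[ℂ] H) (T' : K →L[ℂ] K) (J : K →ₗᵢ[ℂ] H),
    (∀ x, T (J x) = J (T' x)) → (∀ x, star T (J x) = J (star T' x)) →
      (∀ x, alu T (J x) = J (alu T' x)) ∧ (∀ x, star (alu T) (J x) = J (star (alu T') x))

/-- P5. The Aluthge transform is continuous for the *-strong topology on bounded sets. -/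
def Stmt_P5 : Prop :=
  ∀ (H : Type) [NormedAddCommGroup H] [InnerProductSpace ℂ H] [CompleteSpace H]
    (T : ℕ → H →L[ℂ] H) (T₀ : H →L[ℂ] H) (C : ℝ), (∀ k, ‖T k‖ ≤ C) →
    (∀ x, Tendsto (fun k => T k x) atTop (𝓝 (T₀ x))) →
    (∀ x, Tendsto (fun k => star (T k) x) atTop (𝓝 (star T₀ x))) →
    (∀ x, Tendsto (fun k => alu (T k) x) atTop (𝓝 (alu T₀ x))) ∧
    (∀ x, Tendsto (fun k => star (alu (T k)) x) atTop (𝓝 (star (alu T₀) x)))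

/-- P6. Heinz type inequality for powers. -/
def Stmt_P6 : Prop :=
  ∀ (H : Type) [NormedAddCommGroup H] [InnerProductSpace ℂ H] [CompleteSpace H]
    (T : H →L[ℂ] H) (m : ℕ), ‖alu T ^ (m + 1)‖ ^ 2 ≤ ‖T ^ (m + 2)‖ * ‖T ^ m‖

/-- P7. Upper half of Yamazaki's theorem. -/
def Stmt_P7 : Prop :=
  ∀ (H : Type) [NormedAddCommGroup H] [InnerProductSpace ℂ H] [CompleteSpace H]
    (T : H →L[ℂ] H) (C q : ℝ), 0 < q → (∀ m, ‖T ^ m‖ ≤ C * q ^ m) →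
    ∀ ε, 0 < ε → ∃ N, ∀ n, N ≤ n → ‖alu^[n] T‖ ≤ q + ε

/-! ## Block HS: Hilbert-Schmidt toolkit -/

def Stmt_HS : Prop :=
  ∀ (H : Type) [NormedAddCommGroup H] [InnerProductSpace ℂ H] [CompleteSpace H],
    (∀ (A : H →L[ℂ] H) (c : ℝ), HS A c → ‖A‖ ≤ c) ∧
    (∀ (A B : H →L[ℂ] H) (c d : ℝ), HS A c → HS B d → HS (A + B) (c + d)) ∧
    (∀ (A : H →L[ℂ] H) (c : ℝ), HS A c → HS (star A) c ∧ HS (-A) c) ∧
    (∀ (A B : H →L[ℂ] H) (c : ℝ), HS A c → HS (B * A) (‖B‖ * c) ∧ HS (A * B) (‖B‖ * c)) ∧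
    (∀ (X Y : H →L[ℂ] H) (c : ℝ), 0 ≤ X → X ≤ Y → HS Y c → HS X c)

/-! ## Block S: one step of the iteration in the presence of a model -/

/-- S. `T = Z V r² Z⁻¹` with `V` unitary, `0 ≤ r ≤ 1` injective, `Z* Z ≥ 1`. -/
def Stmt_S : Prop :=
  ∀ (H : Type) [NormedAddCommGroup H] [InnerProductSpace ℂ H] [CompleteSpace H]
    (Z : H ≃L[ℂ] H) (V : H ≃ₗᵢ[ℂ] H) (r T Zo Zi Vo : H →L[ℂ] H),
    Zo = (Z : H →L[ℂ] H) → Zi = (Z.symm : H →L[ℂ] H) →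
    Vo = (V.toContinuousLinearEquiv : H →L[ℂ] H) →
    0 ≤ r → r ≤ 1 → Function.Injective r → 1 ≤ star Zo * Zo → T = Zo * Vo * (r * r) * Zi →
    Function.Injective T ∧
    ∃ (Z' : H ≃L[ℂ] H) (Zo' Zi' : H →L[ℂ] H), Zo' = (Z' : H →L[ℂ] H) ∧
      Zi' = (Z'.symm : H →L[ℂ] H) ∧
      rt T * Zo = Zo' * r ∧
      alu T = Zo' * (r * Vo * r) * Zi' ∧
      1 ≤ star Zo' * Zo' ∧
      (r * r) * (star Zo' * Zo') + (star Zo' * Zo') * (r * r)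
        ≤ r * (star Zo * Zo + star Vo * (star Zo * Zo) * Vo) * r ∧
      (∃ N U : H →L[ℂ] H, ‖U‖ ≤ 1 ∧
        ab T * N + N * (r * r)
          = ab T * (star U * star Zi * (star Zo * Zo - 1) * Vo)
            + (-(star Zi * (star Zo * Zo - 1))) * (r * r) ∧
        rt T * (Zo' - Zo) + (Zo' - Zo) * r = rt T * 0 + N * r)

/-! ## The model space `L²(ℝ)` (the variable is `x = log t`) -/

/-- `L²(ℝ)`. -/
abbrev E : Type := Lp ℂ 2 (volume : Measure ℝ)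

/-- `M` is the operator of multiplication by the real function `m`. -/
def IsMul (m : ℝ → ℝ) (M : E →L[ℂ] E) : Prop :=
  ∀ g : E, ∀ᵐ x : ℝ, (M g) x = (m x : ℂ) * g x

/-- Multiplication by `exp (-ε e^x)`, i.e. by `e^{-ε t}`. -/
noncomputable def sOp (ε : ℝ) : E →L[ℂ] E :=
  Classical.epsilon (IsMul (fun x => Real.exp (-(ε * Real.exp x))))

/-- `W` is the translation `(W g)(x) = g (x + log (1/a))`, i.e. `g(t) ↦ g(t/a)`. -/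
def IsTrans (a : ℝ) (W : E ≃ₗᵢ[ℂ] E) : Prop :=
  ∀ g : E, ∀ᵐ x : ℝ, (W g) x = g (x - Real.log a)

/-- L. Basic facts on the multiplication operators and the translation. -/
def Stmt_L : Prop :=
  (∀ ε : ℝ, 0 ≤ ε → IsMul (fun x => Real.exp (-(ε * Real.exp x))) (sOp ε) ∧
    0 ≤ sOp ε ∧ sOp ε ≤ 1 ∧ Function.Injective (sOp ε)) ∧
  (∀ ε δ : ℝ, 0 ≤ ε → 0 ≤ δ → sOp ε * sOp δ = sOp (ε + δ)) ∧
  (∀ ε : ℕ → ℝ, (∀ n, 0 ≤ ε n) → Tendsto ε atTop (𝓝 0) →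
    ∀ g : E, Tendsto (fun n => sOp (ε n) g) atTop (𝓝 g)) ∧
  (∀ a : ℝ, 0 < a → a < 1 → ∃ W : E ≃ₗᵢ[ℂ] E, IsTrans a W) ∧
  (∀ (a : ℝ) (W : E ≃ₗᵢ[ℂ] E) (Wo : E →L[ℂ] E), 0 < a → a < 1 → IsTrans a W →
    Wo = (W.toContinuousLinearEquiv : E →L[ℂ] E) →
    star Wo * Wo = 1 ∧ Wo * star Wo = 1 ∧
    ∀ ε : ℝ, 0 ≤ ε → star Wo * sOp ε * Wo = sOp (a * ε))

/-- LYA. Comparison for the Lyapunov equation. -/
def Stmt_LYA : Prop :=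
  ∀ (ε : ℝ) (X Y : E →L[ℂ] E), 0 < ε → IsSelfAdjoint X → IsSelfAdjoint Y →
    sOp ε * X + X * sOp ε ≤ sOp ε * Y + Y * sOp ε → X ≤ Y

/-- SYL. Hilbert-Schmidt bound for the Sylvester equation. -/
def Stmt_SYL : Prop :=
  ∀ (ε : ℝ) (P N G₁ G₂ : E →L[ℂ] E) (α β : ℝ), 0 < ε → 0 ≤ P → Function.Injective P →
    HS G₁ α → HS G₂ β → P * N + N * sOp ε = P * G₂ + G₁ * sOp ε → HS N (α + β)

/-- The decay class of the Laguerre functions. -/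
def Decay (g : E) : Prop :=
  ∃ C : ℝ, 0 ≤ C ∧ ∀ᵐ x : ℝ, ‖g x‖ ≤ C * (Real.exp x * Real.exp (-(Real.exp x) / 4))

/-- KER. The linear majorant. -/
def Stmt_KER : Prop :=
  ∀ (a ε₀ : ℝ) (W : E ≃ₗᵢ[ℂ] E) (Wo : E →L[ℂ] E) (J : ℕ) (lam : Fin J → ℝ) (ψ : Fin J → E),
    0 < a → a < 1 → 0 < ε₀ → IsTrans a W → Wo = (W.toContinuousLinearEquiv : E →L[ℂ] E) →
    (∀ i, 0 ≤ lam i) → (∀ i, Decay (ψ i)) →
    ∃ (F : ℕ → E →L[ℂ] E) (K θ : ℝ), 0 ≤ K ∧ 0 ≤ θ ∧ θ < 1 ∧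
      F 0 = ∑ i, (lam i : ℂ) • rk (ψ i) ∧ (∀ n, IsSelfAdjoint (F n)) ∧
      (∀ n, sOp (ε₀ * ((1 + a) / 2) ^ n) * F (n + 1) + F (n + 1) * sOp (ε₀ * ((1 + a) / 2) ^ n)
        = sOp (ε₀ * ((1 + a) / 2) ^ n / 2) * (F n + star Wo * F n * Wo)
            * sOp (ε₀ * ((1 + a) / 2) ^ n / 2)) ∧
      ∀ n, HS (F n) (K * θ ^ n)

/-- HP. The upper phase: `Z* Z` is `1` plus a nonnegative finite rank operator. -/
def Stmt_HP : Prop :=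
  ∀ (a ε₀ : ℝ) (W : E ≃ₗᵢ[ℂ] E) (Wo : E →L[ℂ] E) (J : ℕ) (lam : Fin J → ℝ) (ψ : Fin J → E)
    (Z : E ≃L[ℂ] E) (T : E →L[ℂ] E),
    0 < a → a < 1 → 0 < ε₀ → IsTrans a W → Wo = (W.toContinuousLinearEquiv : E →L[ℂ] E) →
    (∀ i, 0 ≤ lam i) → (∀ i, Decay (ψ i)) →
    star (Z : E →L[ℂ] E) * (Z : E →L[ℂ] E) = 1 + ∑ i, (lam i : ℂ) • rk (ψ i) →
    T = (Z : E →L[ℂ] E) * Wo * sOp ε₀ * (Z.symm : E →L[ℂ] E) →
    ∀ x, Tendsto (fun n => ‖alu^[n] T x‖) atTop (𝓝 ‖x‖)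

/-! ## The matrices -/

/-- The `i`-th unit vector of `ℓ²`. -/
noncomputable def e (i : ℕ) : L2N := lp.single 2 i (1 : ℂ)

/-- `C_σ` on `z H²(β)` in the orthonormal basis `z^{i+1}/β(i+1)`, `v i = β(i+1)²`. -/
noncomputable def entry (a : ℝ) (v : ℕ → ℝ) (i l : ℕ) : ℝ :=
  Real.sqrt (v i / v l) * (i.choose l * a ^ (l + 1) * (1 - a) ^ (i - l))

/-- `A` has matrix `m`. -/
def IsMat (A : L2N →L[ℂ] L2N) (m : ℕ → ℕ → ℝ) : Prop := ∀ i l, (A (e l)) i = (m i l : ℂ)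

/-- The admissible weights `v i = β(i+1)²`: nondecreasing, `v i / (i+1)` nonincreasing. -/
def IsV (v : ℕ → ℝ) : Prop :=
  v 0 = 1 ∧ (∀ i, v i ≤ v (i + 1)) ∧ ∀ i : ℕ, (i + 1) * v (i + 1) ≤ (i + 2) * v i

/-- The operator with matrix `entry a v`. -/
noncomputable def opA (a : ℝ) (v : ℕ → ℝ) : L2N →L[ℂ] L2N :=
  Classical.epsilon (fun A => IsMat A (entry a v))

/-- M1. Existence (Schur test). -/
def Stmt_M1 : Prop :=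
  ∀ (a : ℝ) (v : ℕ → ℝ), 0 < a → a < 1 → IsV v →
    IsMat (opA a v) (entry a v) ∧ ‖opA a v‖ ≤ 1

/-- M2. Continuity in the weight. -/
def Stmt_M2 : Prop :=
  ∀ (a : ℝ) (v : ℕ → ℕ → ℝ) (v₀ : ℕ → ℝ), 0 < a → a < 1 → (∀ k, IsV (v k)) → IsV v₀ →
    (∀ i, Tendsto (fun k => v k i) atTop (𝓝 (v₀ i))) →
    (∀ x, Tendsto (fun k => opA a (v k) x) atTop (𝓝 (opA a v₀ x))) ∧
    (∀ x, Tendsto (fun k => star (opA a (v k)) x) atTop (𝓝 (star (opA a v₀) x)))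

/-- M3. Eventually constant weights (Hardy tail). -/
def Stmt_M3 : Prop :=
  ∀ (a : ℝ) (v : ℕ → ℝ) (J : ℕ), 0 < a → a < 1 → IsV v → (∀ i, J ≤ i → v i = v J) →
    ∃ C : ℝ, ∀ m, ‖opA a v ^ m‖ ≤ C * (Real.sqrt a) ^ m

/-- M4. Eventually linear weights (Dirichlet tail). -/
def Stmt_M4 : Prop :=
  ∀ (a : ℝ) (v : ℕ → ℝ) (J : ℕ), 0 < a → a < 1 → IsV v →
    (∀ i, J ≤ i → v i = v J / (J + 1) * (i + 1)) →
    ∃ (lam : Fin J → ℝ) (D : L2N ≃L[ℂ] L2N), (∀ i, 0 ≤ lam i) ∧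
      star (D : L2N →L[ℂ] L2N) * (D : L2N →L[ℂ] L2N) = 1 + ∑ i : Fin J, (lam i : ℂ) • rk (e i) ∧
      opA a v = (D : L2N →L[ℂ] L2N) * opA a (fun i => (i : ℝ) + 1) * (D.symm : L2N →L[ℂ] L2N)

/-- M5. The composition operators. -/
def Stmt_M5 : Prop :=
  ∀ (a : ℝ) (v : ℕ → ℝ) (β : ℕ → ℝ), 0 < a → a < 1 → IsV v → β 0 = 1 →
    (∀ i, β (i + 1) = Real.sqrt (v i)) →
    IsWeight β ∧ ∃ (Cphi Csig : L2N →L[ℂ] L2N) (S : L2N →ₗᵢ[ℂ] L2N),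
      IsCompOp β (phi a) Cphi ∧ IsCompOp β (sigma a) Csig ∧
      (∀ x, Csig (S x) = S (opA a v x)) ∧ (∀ x, star Csig (S x) = S (star (opA a v) x))

/-- MOD. The model: Laguerre functions. -/
def Stmt_MOD : Prop :=
  ∀ (a : ℝ) (W : E ≃ₗᵢ[ℂ] E), 0 < a → a < 1 → IsTrans a W →
    ∃ 𝒰 : L2N ≃ₗᵢ[ℂ] E, (∀ i, Decay (𝒰 (e i))) ∧
      ∀ x, 𝒰 (opA a (fun i => (i : ℝ) + 1) x) = W (sOp ((1 - a) / 2) (𝒰 x))

/-! ## Assembly -/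

/-- B. Baire category argument. -/
def Stmt_B : Prop :=
  ∀ (a : ℝ), 0 < a → a < 1 →
    (∀ (v : ℕ → ℝ) (J : ℕ), IsV v → (∀ i, J ≤ i → v i = v J / (J + 1) * (i + 1)) →
      Tendsto (fun n => ‖alu^[n] (opA a v) (e 0)‖) atTop (𝓝 1)) →
    (∀ (v : ℕ → ℝ) (J : ℕ), IsV v → (∀ i, J ≤ i → v i = v J) →
      ∀ ε, 0 < ε → ∃ N, ∀ n, N ≤ n → ‖alu^[n] (opA a v) (e 0)‖ ≤ Real.sqrt a + ε) →
    ∃ v, IsV v ∧ ∀ N : ℕ, ∀ ε, 0 < ε →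
      (∃ n, N ≤ n ∧ 1 - ε < ‖alu^[n] (opA a v) (e 0)‖) ∧
      (∃ n, N ≤ n ∧ ‖alu^[n] (opA a v) (e 0)‖ < Real.sqrt a + ε)

/-- The final statement. -/
def Stmt_Final : Prop :=
  ∀ a : ℝ, 0 < a → a < 1 → ∃ β : ℕ → ℝ, IsWeight β ∧ ∃ Cphi Csig : L2N →L[ℂ] L2N,
    IsCompOp β (phi a) Cphi ∧ IsCompOp β (sigma a) Csig ∧
    (∃ A : ℕ → L2N →L[ℂ] L2N, A 0 = Csig ∧ ∀ n, IsAluthge (A n) (A (n + 1))) ∧
    ∀ A : ℕ → L2N →L[ℂ] L2N, A 0 = Csig → (∀ n, IsAluthge (A n) (A (n + 1))) →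
      ¬ ∃ S : L2N →L[ℂ] L2N, ∀ x, Tendsto (fun n => A n x) atTop (𝓝 (S x))

end Aluthge
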